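import Mathlib

/-! A coherent sequence of finite approximations with ranks, on a well order whose proper
initial segments are countable. -/

namespace Pool.Agent.H94CK

open Filter Topology

/-- data attached to one point -/
structure Dat (W : Type) where
  /-- finite approximations -/
  F : ℕ → Finset W
  /-- ranks -/
  f : ℕ → ℕ

section

variable {W : Type} [LinearOrder W]

/-- the requirements at `a`, relative to the data `D` at smaller points -/
structure Good (D : W → Dat W) (a : W) (d : Dat W) : Prop where
  lt : ∀ n, ∀ x ∈ d.F n, x < a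
  mono : ∀ n m, n ≤ m → d.F n ⊆ d.F m
  union : ∀ x, x < a → ∃ n, x ∈ d.F n
  coh : ∀ n, ∀ x ∈ d.F n, ∀ y, y < x → (y ∈ (D x).F n ↔ y ∈ d.F n)
  dec : ∀ n, ∀ x ∈ d.F n, d.f n < (D x).f n
  tend : Tendsto d.f atTop atTop

theorem Good.congr {D D' : W → Dat W} {a : W} {d : Dat W} (h : Good D a d)
    (hD : ∀ x, x < a → D x = D' x) : Good D' a d := by
  refine ⟨h.lt, h.mono, h.union, ?_, ?_, h.tend⟩
  · intro n x hx y hy
    rw [← hD x (h.lt n x hx)]
    exact h.coh n x hx y hy
  · intro n x hx
    rw [← hD x (h.lt n x hx)]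
    exact h.dec n x hx

theorem exists_good (D : W → Dat W) (a : W) (hcount : (Set.Iio a).Countable)
    (h : ∀ x, x < a → Good D x (D x)) : ∃ d, Good D a d := by
  classical
  rcases Set.eq_empty_or_nonempty (Set.Iio a) with hemp | hne
  · refine ⟨⟨fun _ => ∅, id⟩, ?_, ?_, ?_, ?_, ?_, ?_⟩
    · simp
    · simp
    · intro x hx
      have : x ∈ Set.Iio a := hx
      rw [hemp] at this
      exact absurd this (Set.notMem_empty _)
    · simp
    · simp
    · exact tendsto_id
  obtain ⟨e, he⟩ := hcount.exists_eq_range hne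
  have hea : ∀ i, e i < a := by
    intro i
    have : e i ∈ Set.Iio a := by rw [he]; exact ⟨i, rfl⟩
    exact this
  -- running maxima
  let A : ℕ → W := fun k => Nat.rec (e 0) (fun k r => max r (e (k + 1))) k
  have hA0 : A 0 = e 0 := rfl
  have hAs : ∀ k, A (k + 1) = max (A k) (e (k + 1)) := fun k => rfl
  have hAlt : ∀ k, A k < a := by
    intro k
    induction k with
    | zero => exact hea 0
    | succ k ih => rw [hAs]; exact max_lt ih (hea _)
  have hAmono : Monotone A := monotone_nat_of_le_succ (fun k => by rw [hAs]; exact le_max_left _ _)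
  have heA : ∀ k, e k ≤ A k := by
    intro k
    cases k with
    | zero => exact le_rfl
    | succ k => rw [hAs]; exact le_max_right _ _
  -- membership in the approximations of `A k`
  have hev : ∀ k x, x ≤ A k → ∀ᶠ n in atTop, x ∈ insert (A k) ((D (A k)).F n) := by
    intro k x hx
    rcases lt_or_eq_of_le hx with hlt | heq
    · obtain ⟨n₀, hn₀⟩ := (h _ (hAlt k)).union x hlt
      filter_upwards [eventually_ge_atTop n₀] with n hn
      exact Finset.mem_insert_of_mem ((h _ (hAlt k)).mono _ _ hn hn₀)
    · exact Eventually.of_forall (fun n => by rw [heq]; exact Finset.mem_insert_self _ _)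
  have hQ : ∀ k, ∃ N, ∀ n, N ≤ n → (∀ i, i ≤ k → A i ∈ insert (A k) ((D (A k)).F n)) ∧
      (∀ i, i ≤ k → e i ∈ insert (A k) ((D (A k)).F n)) ∧ k + 1 ≤ (D (A k)).f n := by
    intro k
    have h1 : ∀ᶠ n in atTop, ∀ i ∈ Set.Iic k, A i ∈ insert (A k) ((D (A k)).F n) := by
      rw [Filter.eventually_all_finite (Set.finite_Iic k)]
      intro i hi
      exact hev k _ (hAmono hi)
    have h2 : ∀ᶠ n in atTop, ∀ i ∈ Set.Iic k, e i ∈ insert (A k) ((D (A k)).F n) := by
      rw [Filter.eventually_all_finite (Set.finite_Iic k)]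
      intro i hi
      exact hev k _ ((heA i).trans (hAmono hi))
    have h3 : ∀ᶠ n in atTop, k + 1 ≤ (D (A k)).f n :=
      (h _ (hAlt k)).tend.eventually (eventually_ge_atTop (k + 1))
    obtain ⟨N, hN⟩ := eventually_atTop.mp (h1.and (h2.and h3))
    exact ⟨N, fun n hn => ⟨fun i hi => (hN n hn).1 i hi, fun i hi => (hN n hn).2.1 i hi,
      (hN n hn).2.2⟩⟩
  choose N₀ hN₀ using hQ
  let N : ℕ → ℕ := fun k => (Finset.range (k + 1)).sup N₀
  have hNN : ∀ k, N₀ k ≤ N k := fun k => Finset.le_sup (f := N₀) (Finset.self_mem_range_succ k)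
  have hN : ∀ k n, N k ≤ n → (∀ i, i ≤ k → A i ∈ insert (A k) ((D (A k)).F n)) ∧
      (∀ i, i ≤ k → e i ∈ insert (A k) ((D (A k)).F n)) ∧ k + 1 ≤ (D (A k)).f n :=
    fun k n hn => hN₀ k n ((hNN k).trans hn)
  let κ : ℕ → ℕ := fun n => Nat.findGreatest (fun k => N k ≤ n) n
  have hκ : ∀ n, N 0 ≤ n → N (κ n) ≤ n := fun n hn =>
    Nat.findGreatest_spec (P := fun k => N k ≤ n) (Nat.zero_le n) hn
  have hκmono : Monotone κ := by
    intro n m hnm
    exact Nat.findGreatest_mono (fun k hk => le_trans hk hnm) hnm
  have hκtop : Tendsto κ atTop atTop := by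
    rw [tendsto_atTop]
    intro k
    filter_upwards [eventually_ge_atTop (max k (N k))] with n hn
    exact Nat.le_findGreatest (le_trans (le_max_left _ _) hn) (le_trans (le_max_right _ _) hn)
  refine ⟨⟨fun n => if N 0 ≤ n then insert (A (κ n)) ((D (A (κ n))).F n) else ∅,
    fun n => (D (A (κ n))).f n - 1⟩, ?_, ?_, ?_, ?_, ?_, ?_⟩
  · intro n x hx
    simp only at hx
    split_ifs at hx with hn
    · rw [Finset.mem_insert] at hx
      rcases hx with rfl | hx
      · exact hAlt _
      · exact ((h _ (hAlt _)).lt n x hx).trans (hAlt _)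
    · exact absurd hx (Finset.notMem_empty _)
  · intro n m hnm
    simp only
    split_ifs with h1 h2
    · intro x hx
      have hAm := (hN _ m (hκ m h2)).1 (κ n) (hκmono hnm)
      rw [Finset.mem_insert] at hAm hx ⊢
      rcases hx with rfl | hx
      · exact hAm
      · rcases hAm with hAm | hAm
        · right
          rw [← hAm]
          exact (h _ (hAlt _)).mono _ _ hnm hx
        · right
          have h3 := (h _ (hAlt (κ n))).mono _ _ hnm hx
          have h4 := (h _ (hAlt (κ n))).lt _ _ hx
          exact ((h _ (hAlt (κ m))).coh m _ hAm x h4).mp h3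
    · exact absurd (h1.trans hnm) h2
    · exact Finset.empty_subset _
    · exact Finset.empty_subset _
  · intro x hx
    have : x ∈ Set.Iio a := hx
    rw [he] at this
    obtain ⟨i, rfl⟩ := this
    obtain ⟨n, hn1, hn2⟩ := ((hκtop.eventually (eventually_ge_atTop i)).and
      (eventually_ge_atTop (N 0))).exists
    refine ⟨n, ?_⟩
    simp only [hn2, if_true]
    exact (hN _ n (hκ n hn2)).2.1 i hn1
  · intro n x hx y hy
    simp only at hx ⊢
    split_ifs at hx ⊢ with hn
    · rw [Finset.mem_insert] at hx ⊢
      rcases hx with rfl | hx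
      · constructor
        · intro h1; exact Or.inr h1
        · rintro (h1 | h1)
          · exact absurd h1 hy.ne
          · exact h1
      · have h5 := (h _ (hAlt _)).lt n x hx
        rw [(h _ (hAlt (κ n))).coh n x hx y hy]
        constructor
        · intro h1; exact Or.inr h1
        · rintro (h1 | h1)
          · exact absurd h1 (hy.trans h5).ne
          · exact h1
    · exact absurd hx (Finset.notMem_empty _)
  · intro n x hx
    simp only at hx ⊢
    split_ifs at hx with hn
    · have h6 := (hN _ n (hκ n hn)).2.2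
      rw [Finset.mem_insert] at hx
      rcases hx with rfl | hx
      · omega
      · have := (h _ (hAlt _)).dec n x hx
        omega
    · exact absurd hx (Finset.notMem_empty _)
  · rw [tendsto_atTop]
    intro k
    filter_upwards [hκtop.eventually (eventually_ge_atTop k), eventually_ge_atTop (N 0)]
      with n hn1 hn2
    have h6 := (hN _ n (hκ n hn2)).2.2
    omega

end

/-- A coherent system on `W`. -/
structure Coh (W : Type) [LinearOrder W] where
  /-- finite approximations of the initial segment below a point -/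
  F : W → ℕ → Finset W
  /-- ranks -/
  f : W → ℕ → ℕ
  lt : ∀ a n, ∀ x ∈ F a n, x < a
  mono : ∀ a n m, n ≤ m → F a n ⊆ F a m
  union : ∀ a x, x < a → ∃ n, x ∈ F a n
  coh : ∀ a n, ∀ x ∈ F a n, ∀ y, y < x → (y ∈ F x n ↔ y ∈ F a n)
  dec : ∀ a n, ∀ x ∈ F a n, f a n < f x n

theorem exists_coh (W : Type) [LinearOrder W] [WellFoundedLT W]
    (hcount : ∀ a : W, (Set.Iio a).Countable) : Nonempty (Coh W) := by
  classical
  -- recursion
  let dflt : Dat W := ⟨fun _ => ∅, id⟩
  let ext : (a : W) → ((x : W) → x < a → Dat W) → W → Dat W :=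
    fun a prev x => if hx : x < a then prev x hx else dflt
  let step : (a : W) → ((x : W) → x < a → Dat W) → Dat W :=
    fun a prev => if h : ∃ d, Good (ext a prev) a d then h.choose else dflt
  let D : W → Dat W := WellFounded.fix (C := fun _ => Dat W) (wellFounded_lt (α := W)) step
  have hD : ∀ a, D a = step a (fun x _ => D x) := fun a => WellFounded.fix_eq _ _ _
  have hext : ∀ a x, x < a → ext a (fun x _ => D x) x = D x := by
    intro a x hx
    simp only [ext, hx, dif_pos]
  have hgood : ∀ a, Good D a (D a) := by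
    intro a
    induction a using WellFoundedLT.induction with
    | ind a ih =>
      have h1 : ∃ d, Good (ext a (fun x _ => D x)) a d := by
        obtain ⟨d, hd⟩ := exists_good D a (hcount a) ih
        exact ⟨d, hd.congr (fun x hx => (hext a x hx).symm)⟩
      rw [hD a]
      simp only [step, h1, dif_pos]
      exact h1.choose_spec.congr (fun x hx => hext a x hx)
  exact ⟨⟨fun a n => (D a).F n, fun a n => (D a).f n, fun a => (hgood a).lt,
    fun a => (hgood a).mono, fun a => (hgood a).union, fun a => (hgood a).coh,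
    fun a => (hgood a).dec⟩⟩

end Pool.Agent.H94CK
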