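import Mathlib
import Pool.Agent.H94CK.Coh

/-! The compact space attached to a coherent system. -/

namespace Pool.Agent.H94CK

open Filter Topology

variable {W : Type} [LinearOrder W]

/-- coherent sets of level `n` -/
def Lev (C : Coh W) (n : ℕ) : Set (W → Bool) :=
  {s | ∀ b, s b = true → ∀ a, a < b → (s a = true ↔ a ∈ C.F b n)}

/-- initial segments -/
def Low (W : Type) [LinearOrder W] : Set (W → Bool) := {s | ∀ a b, a < b → s b = true → s a = true}

/-- the finite members -/
def KF (C : Coh W) : Set (W → Bool) := {s | ∃ n, s ∈ Lev C n}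

/-- the space, as a subset of the Cantor cube -/
def KS (C : Coh W) : Set (W → Bool) := {s | s ∈ Low W ∨ s ∈ KF C}

theorem KF_sub (C : Coh W) : KF C ⊆ KS C := fun _ h => Or.inr h

theorem isClosed_Lev (C : Coh W) (n : ℕ) : IsClosed (Lev C n) := by
  have : Lev C n = ⋂ b, ⋂ a, {s : W → Bool | s b = true → a < b → (s a = true ↔ a ∈ C.F b n)} := by
    ext s
    simp only [Lev, Set.mem_ofPred_eq, Set.mem_iInter]
    exact ⟨fun h b a hb hab => h b hb a hab, fun h b hb a hab => h b a hb hab⟩
  rw [this]
  refine isClosed_iInter (fun b => isClosed_iInter (fun a => ?_))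
  have hc : Continuous (fun s : W → Bool => (s a, s b)) :=
    (continuous_apply a).prodMk (continuous_apply b)
  exact (isClosed_discrete
    {p : Bool × Bool | p.2 = true → a < b → (p.1 = true ↔ a ∈ C.F b n)}).preimage hc

theorem isOpen_coord (a : W) (v : Bool) : IsOpen {s : W → Bool | s a = v} := by
  have hc : Continuous (fun s : W → Bool => s a) := continuous_apply a
  exact (isOpen_discrete ({v} : Set Bool)).preimage hc

/-- near a member that is not an initial segment only finitely many levels occur -/
theorem level_lt (C : Coh W) {a b : W} {N : ℕ} (hab : a < b) (hN : a ∈ C.F b N) {t : W → Bool}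
    (ht : t ∈ KS C) (hb : t b = true) (ha : t a = false) : ∃ n, n < N ∧ t ∈ Lev C n := by
  rcases ht with ht | ⟨n, hn⟩
  · have := ht a b hab hb
    rw [ha] at this
    exact absurd this (by simp)
  · refine ⟨n, ?_, hn⟩
    by_contra hcon
    push Not at hcon
    have := (hn b hb a hab).mpr (C.mono b N n hcon hN)
    rw [ha] at this
    exact absurd this (by simp)

theorem isClosed_KS (C : Coh W) : IsClosed (KS C) := by
  rw [← closure_subset_iff_isClosed]
  intro s hs
  by_contra hcon
  have hlow : s ∉ Low W := fun h => hcon (Or.inl h)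
  simp only [Low, Set.mem_ofPred_eq, not_forall] at hlow
  obtain ⟨a, b, hab, hb, ha⟩ := hlow
  have ha' : s a = false := by simpa using ha
  obtain ⟨N, hN⟩ := C.union b a hab
  have hZ : IsClosed (⋃ n ∈ Set.Iio N, Lev C n) :=
    (Set.finite_Iio N).isClosed_biUnion (fun n _ => isClosed_Lev C n)
  have hsZ : s ∈ (⋃ n ∈ Set.Iio N, Lev C n)ᶜ := by
    intro h
    simp only [Set.mem_iUnion] at h
    obtain ⟨n, _, hn⟩ := h
    exact hcon (Or.inr ⟨n, hn⟩)
  have hU : IsOpen ({s : W → Bool | s b = true} ∩ {s : W → Bool | s a = false} ∩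
      (⋃ n ∈ Set.Iio N, Lev C n)ᶜ) :=
    ((isOpen_coord b true).inter (isOpen_coord a false)).inter hZ.isOpen_compl
  obtain ⟨t, ⟨⟨htb, hta⟩, htZ⟩, htK⟩ := mem_closure_iff.mp hs _ hU ⟨⟨hb, ha'⟩, hsZ⟩
  obtain ⟨n, hn, hn'⟩ := level_lt C hab hN htK htb hta
  apply htZ
  simp only [Set.mem_iUnion]
  exact ⟨n, hn, hn'⟩

theorem isCompact_KS (C : Coh W) : IsCompact (KS C) := (isClosed_KS C).isCompact

/-- restriction to an initial segment -/
def res (d : W) (s : W → Bool) : W → Bool := fun w => s w && decide (w < d)

theorem res_true {d : W} {s : W → Bool} {w : W} : res d s w = true ↔ s w = true ∧ w < d := by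
  simp [res]

theorem res_Lev {C : Coh W} {n : ℕ} {s : W → Bool} (h : s ∈ Lev C n) (d : W) :
    res d s ∈ Lev C n := by
  intro b hb a hab
  rw [res_true] at hb
  rw [res_true, ← h b hb.1 a hab]
  exact ⟨fun h => h.1, fun h => ⟨h, hab.trans hb.2⟩⟩

theorem res_KF {C : Coh W} {s : W → Bool} (h : s ∈ KF C) (d : W) : res d s ∈ KF C := by
  obtain ⟨n, hn⟩ := h
  exact ⟨n, res_Lev hn d⟩

theorem res_KS {C : Coh W} {s : W → Bool} (h : s ∈ KS C) (d : W) : res d s ∈ KS C := by
  rcases h with h | h
  · left
    intro a b hab hb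
    rw [res_true] at hb ⊢
    exact ⟨h a b hab hb.1, hab.trans hb.2⟩
  · exact Or.inr (res_KF h d)

theorem Lev_finite [WellFoundedLT W] {C : Coh W} {n : ℕ} {s : W → Bool} (h : s ∈ Lev C n) :
    {w | s w = true}.Finite := by
  rcases Set.eq_empty_or_nonempty {w | s w = true} with he | hne
  · rw [he]; exact Set.finite_empty
  obtain ⟨w0, hw0, hmin⟩ := WellFounded.has_min (wellFounded_lt (α := W)) _ hne
  have hlt : ∀ a b, s a = true → s b = true → a < b → C.f b n < C.f a n := by
    intro a b ha hb hab
    exact C.dec b n a ((h b hb a hab).mp ha)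
  apply Set.Finite.of_injOn (f := fun w => C.f w n) (t := Set.Iic (C.f w0 n)) _ _
    (Set.finite_Iic _)
  · intro w hw
    rcases lt_or_eq_of_le (not_lt.mp (hmin w hw)) with h1 | h1
    · exact (hlt w0 w hw0 hw h1).le
    · rw [h1]; exact Set.mem_Iic.mpr le_rfl
  · intro a ha b hb hab
    simp only at hab
    rcases lt_trichotomy a b with h1 | h1 | h1
    · have := hlt a b ha hb h1
      omega
    · exact h1
    · have := hlt b a hb ha h1
      omega

theorem KF_finite [WellFoundedLT W] {C : Coh W} {s : W → Bool} (h : s ∈ KF C) :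
    {w | s w = true}.Finite := by
  obtain ⟨n, hn⟩ := h
  exact Lev_finite hn

/-- the basic finite member with top `b` -/
noncomputable def bar (C : Coh W) (b : W) (n : ℕ) : W → Bool :=
  fun w => decide (w = b ∨ w ∈ C.F b n)

theorem bar_true {C : Coh W} {b : W} {n : ℕ} {w : W} :
    bar C b n w = true ↔ w = b ∨ w ∈ C.F b n := by
  simp [bar]

theorem bar_Lev (C : Coh W) (b : W) (n : ℕ) : bar C b n ∈ Lev C n := by
  intro x hx a hax
  rw [bar_true] at hx ⊢
  rcases hx with rfl | hx
  · exact ⟨fun h => h.resolve_left hax.ne, Or.inr⟩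
  · have hxb := C.lt b n x hx
    rw [C.coh b n x hx a hax]
    exact ⟨fun h => h.resolve_left (hax.trans hxb).ne, Or.inr⟩

/-- the finite members are dense -/
theorem dense_KF (C : Coh W) {s : W → Bool} (hs : s ∈ KS C) : s ∈ closure (KF C) := by
  classical
  rcases hs with hs | hs
  swap
  · exact subset_closure hs
  have key : ∀ G : Finset W, ∃ t ∈ KF C, ∀ w ∈ G, t w = s w := by
    intro G
    rcases (G.filter (fun w => s w = true)).eq_empty_or_nonempty with he | hne
    · refine ⟨fun _ => false, ⟨0, fun b hb => absurd hb (by simp)⟩, ?_⟩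
      intro w hw
      by_contra hcon
      have : w ∈ G.filter (fun w => s w = true) := by
        rw [Finset.mem_filter]
        refine ⟨hw, ?_⟩
        cases h : s w
        · exact absurd h.symm hcon
        · rfl
      rw [he] at this
      exact absurd this (Finset.notMem_empty _)
    · set b := (G.filter (fun w => s w = true)).max' hne with hb
      have hbm := Finset.max'_mem _ hne
      rw [← hb, Finset.mem_filter] at hbm
      have hev : ∀ᶠ n in atTop, ∀ w ∈ G, w < b → w ∈ C.F b n := by
        rw [Filter.eventually_all_finset]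
        intro w _
        by_cases hwb : w < b
        · obtain ⟨n₀, hn₀⟩ := C.union b w hwb
          filter_upwards [eventually_ge_atTop n₀] with n hn _
          exact C.mono b _ _ hn hn₀
        · exact Eventually.of_forall (fun n h => absurd h hwb)
      obtain ⟨n, hn⟩ := hev.exists
      refine ⟨bar C b n, ⟨n, bar_Lev C b n⟩, ?_⟩
      intro w hw
      rcases lt_trichotomy w b with h1 | h1 | h1
      · have e1 : bar C b n w = true := bar_true.mpr (Or.inr (hn w hw h1))
        rw [e1, hs w b h1 hbm.2]
      · rw [h1]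
        have e1 : bar C b n b = true := bar_true.mpr (Or.inl rfl)
        rw [e1, hbm.2]
      · have e1 : ¬ bar C b n w = true := by
          rw [bar_true]
          rintro (h2 | h2)
          · exact h1.ne' h2
          · exact absurd (C.lt b n w h2) (not_lt.mpr h1.le)
        have e2 : ¬ s w = true := by
          intro h2
          have : w ≤ b := Finset.le_max' _ _ (by rw [Finset.mem_filter]; exact ⟨hw, h2⟩)
          exact absurd this (not_le.mpr h1)
        rw [Bool.not_eq_true] at e1 e2
        rw [e1, e2]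
  rw [mem_closure_iff]
  intro U hU hsU
  rw [isOpen_pi_iff] at hU
  obtain ⟨G, u, hu, hGU⟩ := hU s hsU
  obtain ⟨t, ht, htG⟩ := key G
  refine ⟨t, hGU ?_, ht⟩
  intro w hw
  rw [htG w hw]
  exact (hu w hw).2

/-! ### Scatteredness -/

/-- `b` is the top of the support of `t` -/
def IsTop (t : W → Bool) (b : W) : Prop := t b = true ∧ ∀ a, t a = true → a ≤ b

theorem exists_isTop {t : W → Bool} (hfin : {w | t w = true}.Finite) {b : W} (hb : t b = true) :
    ∃ c, IsTop t c := by
  have hne : hfin.toFinset.Nonempty := ⟨b, by simpa using hb⟩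
  refine ⟨hfin.toFinset.max' hne, ?_, ?_⟩
  · have := Finset.max'_mem _ hne
    simpa using this
  · intro a ha
    exact Finset.le_max' _ _ (by simpa using ha)

/-- rank of a finite member -/
noncomputable def rk (C : Coh W) (N : ℕ) (t : W → Bool) (b : W) : ℕ := by
  classical
  exact ∑ n ∈ (Finset.range N).filter (fun n => t ∈ Lev C n), (C.f b n + 1)

theorem isolated_of_nonLow [WellFoundedLT W] (C : Coh W) {X : Set (W → Bool)} (hX : X ⊆ KS C)
    {s : W → Bool} (hs : s ∈ X) (hlow : s ∉ Low W) :
    ∃ t ∈ X, ∃ U : Set (W → Bool), IsOpen U ∧ U ∩ X = {t} := by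
  classical
  simp only [Low, Set.mem_ofPred_eq, not_forall] at hlow
  obtain ⟨a, b, hab, hb, ha⟩ := hlow
  have ha' : s a = false := by simpa using ha
  obtain ⟨N, hN⟩ := C.union b a hab
  have hlev : ∀ t ∈ X, t b = true → t a = false → ∃ n, n < N ∧ t ∈ Lev C n :=
    fun t ht h1 h2 => level_lt C hab hN (hX ht) h1 h2
  -- minimal rank
  have hne : {φ : ℕ | ∃ t ∈ X, ∃ c, t b = true ∧ t a = false ∧ IsTop t c ∧ φ = rk C N t c}.Nonempty := by
    obtain ⟨n, _, hn⟩ := hlev s hs hb ha'
    obtain ⟨c, hc⟩ := exists_isTop (Lev_finite hn) hb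
    exact ⟨_, s, hs, c, hb, ha', hc, rfl⟩
  obtain ⟨φ, ⟨t, ht, c, htb, hta, hc, hφ⟩, hmin⟩ :=
    WellFounded.has_min (wellFounded_lt (α := ℕ)) _ hne
  obtain ⟨n₀, hn₀, htn₀⟩ := hlev t ht htb hta
  have htfin := Lev_finite htn₀
  set G : Finset W := htfin.toFinset ∪ (Finset.range N).biUnion (fun n => C.F c n) with hG
  refine ⟨t, ht, {t' | t' b = true} ∩ {t' | t' a = false} ∩ ⋂ w ∈ G, {t' | t' w = t w}, ?_, ?_⟩
  · refine ((isOpen_coord b true).inter (isOpen_coord a false)).inter ?_
    exact isOpen_biInter_finset (fun w _ => isOpen_coord w (t w))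
  · apply Set.Subset.antisymm
    swap
    · rintro _ rfl
      exact ⟨⟨⟨htb, hta⟩, by simp⟩, ht⟩
    rintro t' ⟨⟨⟨htb', hta'⟩, hG'⟩, ht'⟩
    simp only [Set.mem_iInter, Set.mem_ofPred_eq] at htb' hta' hG'
    rw [Set.mem_singleton_iff]
    by_contra hne'
    have hcG : c ∈ G := by
      rw [hG, Finset.mem_union]
      left
      simpa using hc.1
    have hct' : t' c = true := by rw [hG' c hcG]; exact hc.1
    -- for every level of `t'` below `N`
    have hagree : ∀ m, m < N → t' ∈ Lev C m → ∀ w, w < c → (t w = t' w) := by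
      intro m hm hm' w hw
      by_cases hwG : w ∈ G
      · exact (hG' w hwG).symm
      · have h1 : ¬ t w = true := by
          intro h
          apply hwG
          rw [hG, Finset.mem_union]
          left
          simpa using h
        have h2 : ¬ t' w = true := by
          rw [hm' c hct' w hw]
          intro h
          apply hwG
          rw [hG, Finset.mem_union]
          right
          rw [Finset.mem_biUnion]
          exact ⟨m, Finset.mem_range.mpr hm, h⟩
        rw [Bool.not_eq_true] at h1 h2
        rw [h1, h2]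
    obtain ⟨m₀, hm₀, htm₀⟩ := hlev t' ht' htb' hta'
    have hag := hagree m₀ hm₀ htm₀
    have hlevsub : ∀ m, m < N → t' ∈ Lev C m → t ∈ Lev C m := by
      intro m hm hm' x hx y hy
      have hxc := hc.2 x hx
      have hyc : y < c := lt_of_lt_of_le hy hxc
      rw [hag y hyc]
      apply hm' x _ y hy
      rcases lt_or_eq_of_le hxc with h | h
      · rw [← hag x h]; exact hx
      · rw [h]; exact hct'
    -- top of `t'`
    obtain ⟨c', hc'⟩ := exists_isTop (Lev_finite htm₀) hct'
    have hcc' : c < c' := by
      rcases lt_or_eq_of_le (hc'.2 c hct') with h | h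
      · exact h
      · exfalso
        apply hne'
        funext w
        rcases lt_trichotomy w c with h1 | h1 | h1
        · exact (hag w h1).symm
        · rw [h1, hct', hc.1]
        · have e1 : ¬ t w = true := fun h2 => absurd (hc.2 w h2) (not_le.mpr h1)
          have e2 : ¬ t' w = true := by
            intro h2
            have := hc'.2 w h2
            rw [← h] at this
            exact absurd this (not_le.mpr h1)
          rw [Bool.not_eq_true] at e1 e2
          rw [e1, e2]
    have hrk : rk C N t' c' < rk C N t c := by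
      unfold rk
      have hsub : (Finset.range N).filter (fun n => t' ∈ Lev C n) ⊆
          (Finset.range N).filter (fun n => t ∈ Lev C n) := by
        intro m hm
        rw [Finset.mem_filter, Finset.mem_range] at hm ⊢
        exact ⟨hm.1, hlevsub m hm.1 hm.2⟩
      have hlt : ∑ n ∈ (Finset.range N).filter (fun n => t' ∈ Lev C n), (C.f c' n + 1)
          < ∑ n ∈ (Finset.range N).filter (fun n => t' ∈ Lev C n), (C.f c n + 1) := by
        apply Finset.sum_lt_sum_of_nonempty
        · exact ⟨m₀, by rw [Finset.mem_filter, Finset.mem_range]; exact ⟨hm₀, htm₀⟩⟩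
        · intro m hm
          rw [Finset.mem_filter, Finset.mem_range] at hm
          have := C.dec c' m c ((hm.2 c' hc'.1 c hcc').mp hct')
          omega
      exact lt_of_lt_of_le hlt (Finset.sum_le_sum_of_subset hsub)
    exact hmin _ ⟨t', ht', c', htb', hta', hc', rfl⟩ (hφ ▸ hrk)

theorem isolated_of_Low [WellFoundedLT W] {X : Set (W → Bool)} (hne : X.Nonempty)
    (hX : X ⊆ Low W) : ∃ t ∈ X, ∃ U : Set (W → Bool), IsOpen U ∧ U ∩ X = {t} := by
  by_cases h : ∃ w : W, ∃ t ∈ X, t w = false
  · obtain ⟨w, ⟨t, ht, htw⟩, hmin⟩ :=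
      WellFounded.has_min (wellFounded_lt (α := W)) {w : W | ∃ t ∈ X, t w = false} h
    refine ⟨t, ht, {t' | t' w = false}, isOpen_coord w false, ?_⟩
    apply Set.Subset.antisymm
    swap
    · rintro _ rfl
      exact ⟨htw, ht⟩
    rintro t' ⟨ht'w, ht'⟩
    rw [Set.mem_singleton_iff]
    have key : ∀ u ∈ X, u w = false → ∀ v, u v = decide (v < w) := by
      intro u hu huw v
      rcases lt_or_ge v w with h1 | h1
      · have : u v = true := by
          by_contra hcon
          rw [Bool.not_eq_true] at hcon
          exact hmin v ⟨u, hu, hcon⟩ h1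
        rw [this]
        simp [h1]
      · have : ¬ u v = true := by
          intro h2
          rcases lt_or_eq_of_le h1 with h3 | h3
          · have := hX hu w v h3 h2
            rw [huw] at this
            exact absurd this (by simp)
          · rw [← h3, huw] at h2
            exact absurd h2 (by simp)
        rw [Bool.not_eq_true] at this
        rw [this]
        simp [not_lt.mpr h1]
    funext v
    rw [key t' ht' ht'w v, key t ht htw v]
  · push Not at h
    obtain ⟨t, ht⟩ := hne
    refine ⟨t, ht, Set.univ, isOpen_univ, ?_⟩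
    rw [Set.univ_inter]
    apply Set.Subset.antisymm
    · intro t' ht'
      rw [Set.mem_singleton_iff]
      funext v
      rw [Bool.eq_true_of_not_eq_false (h v t' ht'), Bool.eq_true_of_not_eq_false (h v t ht)]
    · rintro _ rfl
      exact ht

theorem scattered_KS [WellFoundedLT W] (C : Coh W) {X : Set (W → Bool)} (hX : X ⊆ KS C)
    (hne : X.Nonempty) : ∃ t ∈ X, ∃ U : Set (W → Bool), IsOpen U ∧ U ∩ X = {t} := by
  by_cases h : ∃ s ∈ X, s ∉ Low W
  · obtain ⟨s, hs, hs'⟩ := h
    exact isolated_of_nonLow C hX hs hs'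
  · push Not at h
    exact isolated_of_Low hne h

end Pool.Agent.H94CK
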