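import Mathlib
import Pool.Agent.H94CK.Space

/-! Families of continuous functions of bounded variation on the space. -/

namespace Pool.Agent.H94CK

open Filter Topology

/-- every sequence is strictly bounded -/
def Hub (W : Type) [LinearOrder W] : Prop := ∀ s : ℕ → W, ∃ b, ∀ n, s n < b

section

variable {W : Type} [LinearOrder W]

theorem Hub.gt (h : Hub W) (a : W) : ∃ b, a < b := by
  obtain ⟨b, hb⟩ := h (fun _ => a)
  exact ⟨b, hb 0⟩

theorem Hub.countable (h : Hub W) {S : Set W} (hS : S.Countable) (a : W) :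
    ∃ b, a < b ∧ ∀ x ∈ S, x < b := by
  rcases S.eq_empty_or_nonempty with he | hne
  · obtain ⟨b, hb⟩ := h.gt a
    exact ⟨b, hb, by simp [he]⟩
  · obtain ⟨f, hf⟩ := hS.exists_eq_range hne
    obtain ⟨b, hb⟩ := h f
    obtain ⟨b', hb'⟩ := h.gt (max a b)
    refine ⟨b', (le_max_left _ _).trans_lt hb', ?_⟩
    intro x hx
    rw [hf] at hx
    obtain ⟨n, rfl⟩ := hx
    exact (hb n).trans ((le_max_right _ _).trans_lt hb')

theorem eq_of_abs_lt_all {x y C : ℝ} (h : ∀ m : ℕ, |x - y| ≤ C / ((m : ℝ) + 1)) : x = y := by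
  by_contra hne
  have hpos : 0 < |x - y| := abs_pos.mpr (sub_ne_zero.mpr hne)
  have hlim : Tendsto (fun m : ℕ => C / ((m : ℝ) + 1)) atTop (𝓝 0) := by
    have := (tendsto_one_div_add_atTop_nhds_zero_nat (𝕜 := ℝ)).const_mul C
    simp only [mul_zero] at this
    refine this.congr (fun m => ?_)
    ring
  have := ge_of_tendsto' hlim h
  linarith

variable [WellFoundedLT W] [Nonempty W]

/-- functions on the finite members that are continuous on countable sets are determined by
restrictions -/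
theorem determined (hub : Hub W) (C : Coh W) (g : (W → Bool) → ℝ)
    (hg : ∀ S : Set (W → Bool), S.Countable → S ⊆ KF C →
      ∃ G : (W → Bool) → ℝ, ContinuousOn G (KS C) ∧ ∀ s ∈ S, G s = g s) :
    ∃ η, ∀ δ, η ≤ δ → ∀ s ∈ KF C, g (res δ s) = g s := by
  have step1 : ∀ ε : ℝ, 0 < ε → ∃ η, ∀ δ, η ≤ δ → ∀ s ∈ KF C, |g (res δ s) - g s| < ε := by
    intro ε hε
    by_contra hcon
    push Not at hcon
    choose D hD s hs hsε using hcon
    -- an upper bound
    have hB : ∀ η, ∃ β, η < β ∧ D η ≤ β ∧ ∀ w, s η w = true → w < β := by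
      intro η
      obtain ⟨β, hβ1, hβ2⟩ := hub.countable (KF_finite (hs η)).countable (max η (D η))
      exact ⟨β, (le_max_left _ _).trans_lt hβ1, ((le_max_right _ _).trans_lt hβ1).le, hβ2⟩
    choose β hβ1 hβ2 hβ3 using hB
    obtain ⟨w₀⟩ := ‹Nonempty W›
    let η : ℕ → W := fun j => β^[j] w₀
    have hη : ∀ j, η (j + 1) = β (η j) := fun j => Function.iterate_succ_apply' β j w₀
    have hηmono : StrictMono η := strictMono_nat_of_lt_succ (fun j => by rw [hη]; exact hβ1 _)
    let y : ℕ → W → Bool := fun j => s (η j)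
    let z : ℕ → W → Bool := fun j => res (D (η j)) (y j)
    have hyK : ∀ j, y j ∈ KF C := fun j => hs _
    have hzK : ∀ j, z j ∈ KF C := fun j => res_KF (hyK j) _
    obtain ⟨G, hGc, hG⟩ := hg (Set.range y ∪ Set.range z)
      ((Set.countable_range y).union (Set.countable_range z)) (by
        rintro _ (⟨j, rfl⟩ | ⟨j, rfl⟩)
        · exact hyK j
        · exact hzK j)
    let U : Ultrafilter ℕ := Filter.hyperfilter ℕ
    have hU : (U : Filter ℕ) ≤ atTop := by
      rw [← Nat.cofinite_eq_atTop]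
      exact Filter.hyperfilter_le_cofinite
    obtain ⟨x, hx, hxU⟩ := (isCompact_KS C).ultrafilter_le_nhds (U.map y) (by
      rw [Ultrafilter.coe_map, Filter.le_principal_iff, Filter.mem_map]
      exact Filter.univ_mem' (fun j => KF_sub C (hyK j)))
    have hy : Tendsto y U (𝓝 x) := hxU
    have hz : Tendsto z U (𝓝 x) := by
      rw [tendsto_pi_nhds]
      intro w
      have h1 : Tendsto (fun j => y j w) U (𝓝 (x w)) := (tendsto_pi_nhds.mp hy) w
      refine h1.congr' ?_
      have h2 : ∀ᶠ j in atTop, y j w = z j w := by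
        by_cases hw : ∃ j₀, w < η j₀
        · obtain ⟨j₀, hj₀⟩ := hw
          filter_upwards [eventually_ge_atTop j₀] with j hj
          have h3 : w < D (η j) := (hj₀.trans_le (hηmono.monotone hj)).trans_le (hD _)
          simp [z, res, h3]
        · push Not at hw
          refine Eventually.of_forall (fun j => ?_)
          have h3 : ¬ y j w = true := by
            intro h4
            have h5 := hβ3 (η j) w h4
            rw [← hη] at h5
            exact absurd h5 (not_lt.mpr (hw _))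
          rw [Bool.not_eq_true] at h3
          simp [z, res, h3]
      exact h2.filter_mono hU
    have hGy : Tendsto (fun j => G (y j)) U (𝓝 (G x)) := by
      have h3 : Tendsto y U (𝓝[KS C] x) :=
        tendsto_nhdsWithin_iff.mpr ⟨hy, Eventually.of_forall (fun j => KF_sub C (hyK j))⟩
      exact (hGc x hx).tendsto.comp h3
    have hGz : Tendsto (fun j => G (z j)) U (𝓝 (G x)) := by
      have h3 : Tendsto z U (𝓝[KS C] x) :=
        tendsto_nhdsWithin_iff.mpr ⟨hz, Eventually.of_forall (fun j => KF_sub C (hzK j))⟩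
      exact (hGc x hx).tendsto.comp h3
    have hlim : Tendsto (fun j => |G (z j) - G (y j)|) U (𝓝 |G x - G x|) := (hGz.sub hGy).abs
    rw [sub_self, abs_zero] at hlim
    obtain ⟨j, hj⟩ := (hlim.eventually (gt_mem_nhds hε)).exists
    rw [hG _ (Or.inr ⟨j, rfl⟩), hG _ (Or.inl ⟨j, rfl⟩)] at hj
    exact absurd hj (not_lt.mpr (hsε (η j)))
  choose η hη using fun m : ℕ => step1 (1 / ((m : ℝ) + 1)) (by positivity)
  obtain ⟨b, hb⟩ := hub η
  refine ⟨b, fun δ hδ s hs => ?_⟩
  apply eq_of_abs_lt_all (C := 1)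
  intro m
  exact (hη m δ ((hb m).le.trans hδ) s hs).le

/-- the assumptions on the family `e` -/
structure Fam (C : Coh W) (e : W → (W → Bool) → ℝ) (V : ℝ) : Prop where
  cont : ∀ δ, ContinuousOn (e δ) (KS C)
  var : ∀ (m : ℕ) (a b : ℕ → W), (∀ i, a i < b i) → (∀ i, b i < a (i + 1)) → ∀ s ∈ KS C,
    ∑ i ∈ Finset.range m, |e (a i) s - e (b i) s| ≤ V

variable {C : Coh W} {e : W → (W → Bool) → ℝ} {V : ℝ}

/-- the values at a point are eventually constant -/
theorem Fam.eventually_const (h : Fam C e V) (hub : Hub W) {s : W → Bool} (hs : s ∈ KS C) :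
    ∃ (c : ℝ) (η : W), ∀ δ, η ≤ δ → e δ s = c := by
  have step1 : ∀ ε : ℝ, 0 < ε → ∃ η, ∀ δ, η ≤ δ → |e δ s - e η s| < ε := by
    intro ε hε
    by_contra hcon
    push Not at hcon
    choose D hD hDε using hcon
    have hlt : ∀ η, η < D η := by
      intro η
      refine lt_of_le_of_ne (hD η) ?_
      intro heq
      have := hDε η
      rw [← heq, sub_self, abs_zero] at this
      linarith
    choose nx hnx using hub.gt
    obtain ⟨w₀⟩ := ‹Nonempty W›
    let a : ℕ → W := fun j => (fun x => nx (D x))^[j] w₀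
    have ha : ∀ j, a (j + 1) = nx (D (a j)) := fun j => Function.iterate_succ_apply' _ j w₀
    obtain ⟨m, hm⟩ := exists_nat_gt (V / ε)
    have h1 := h.var m a (fun j => D (a j)) (fun j => hlt _) (fun j => by rw [ha]; exact hnx _) s hs
    have h2 : ∑ i ∈ Finset.range m, ε ≤ ∑ i ∈ Finset.range m, |e (a i) s - e (D (a i)) s| := by
      apply Finset.sum_le_sum
      intro i _
      rw [abs_sub_comm]
      exact hDε (a i)
    rw [Finset.sum_const, Finset.card_range, nsmul_eq_mul] at h2
    rw [div_lt_iff₀ hε] at hm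
    linarith
  choose η hη using fun m : ℕ => step1 (1 / ((m : ℝ) + 1)) (by positivity)
  obtain ⟨b, hb⟩ := hub η
  refine ⟨e b s, b, fun δ hδ => ?_⟩
  apply eq_of_abs_lt_all (C := 2)
  intro m
  have h1 := hη m δ ((hb m).le.trans hδ)
  have h2 := hη m b (hb m).le
  have h3 : e δ s - e b s = (e δ s - e (η m) s) - (e b s - e (η m) s) := by ring
  rw [h3]
  calc |(e δ s - e (η m) s) - (e b s - e (η m) s)|
      ≤ |e δ s - e (η m) s| + |e b s - e (η m) s| := abs_sub _ _
    _ ≤ 1 / ((m : ℝ) + 1) + 1 / ((m : ℝ) + 1) := add_le_add h1.le h2.le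
    _ = 2 / ((m : ℝ) + 1) := by ring

/-- the main combinatorial statement -/
theorem Fam.main (h : Fam C e V) (hub : Hub W) (hcount : ∀ a : W, (Set.Iio a).Countable) :
    ∃ δ : ℕ → W, StrictMono δ ∧ ∀ k : ℕ, ∀ s ∈ KS C,
      |∑ i ∈ Finset.range k, e (δ i) s - ∑ i ∈ Finset.range k, e (δ (k + i)) s| ≤ V := by
  classical
  -- eventual values
  have hc : ∀ s : W → Bool, ∃ (c : ℝ) (η : W), s ∈ KS C → ∀ δ, η ≤ δ → e δ s = c := by
    intro s
    by_cases hs : s ∈ KS C
    · obtain ⟨c, η, hη⟩ := h.eventually_const hub hs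
      exact ⟨c, η, fun _ => hη⟩
    · obtain ⟨w₀⟩ := ‹Nonempty W›
      exact ⟨0, w₀, fun h => absurd h hs⟩
  choose c θ hθ using hc
  -- `c` is determined by restrictions
  obtain ⟨ηc, hηc⟩ := determined hub C c (by
    intro S hS hSK
    obtain ⟨w₀⟩ := ‹Nonempty W›
    obtain ⟨b, _, hb⟩ := hub.countable (hS.image θ) w₀
    exact ⟨e b, h.cont b, fun s hs => hθ s (KF_sub C (hSK hs)) b (hb _ ⟨s, hs, rfl⟩).le⟩)
  -- each `e δ` is determined by restrictions
  have hdet : ∀ δ, ∃ η, ∀ δ', η ≤ δ' → ∀ s ∈ KF C, e δ (res δ' s) = e δ s := fun δ =>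
    determined hub C (e δ) (fun S _ _ => ⟨e δ, h.cont δ, fun _ _ => rfl⟩)
  choose hh hhh using hdet
  -- good points
  have hsmall : ∀ x : W, {s : W → Bool | s ∈ KF C ∧ ∀ w, s w = true → w < x}.Countable := by
    intro x
    have h1 : Set.Countable {T : Set W | T ⊆ Set.Iio x ∧ T.Finite} := by
      have := Set.countable_ofPred_finite_subset (hcount x)
      refine this.mono ?_
      rintro T ⟨h1, h2⟩
      exact ⟨h2, h1⟩
    have hmaps : Set.MapsTo (fun s : W → Bool => {w | s w = true})
        {s : W → Bool | s ∈ KF C ∧ ∀ w, s w = true → w < x} {T : Set W | T ⊆ Set.Iio x ∧ T.Finite} :=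
      fun s hs => ⟨fun w hw => hs.2 w hw, KF_finite hs.1⟩
    have hinj : Set.InjOn (fun s : W → Bool => {w | s w = true})
        {s : W → Bool | s ∈ KF C ∧ ∀ w, s w = true → w < x} := by
      intro s _ s' _ hss
      funext w
      have h3 : w ∈ {w | s w = true} ↔ w ∈ {w | s' w = true} := by
        simp only at hss
        rw [hss]
      have h4 : s w = true ↔ s' w = true := h3
      cases h1 : s w <;> cases h2 : s' w <;> simp_all
    exact hmaps.countable_of_injOn hinj h1
  have hΘ : ∀ x : W, ∃ y, x < y ∧ ∀ s ∈ KF C, (∀ w, s w = true → w < x) →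
      ∀ δ, y ≤ δ → e δ s = c s := by
    intro x
    obtain ⟨b, hb1, hb2⟩ := hub.countable ((hsmall x).image θ) x
    exact ⟨b, hb1, fun s hs hsx δ hδ => hθ s (KF_sub C hs) δ
      ((hb2 _ ⟨s, ⟨hs, hsx⟩, rfl⟩).le.trans hδ)⟩
  choose Θ hΘ1 hΘ2 using hΘ
  have hgood : ∀ x : W, ∃ y, x < y ∧ ∀ s ∈ KF C, (∀ w, s w = true → w < y) → e y s = c s := by
    intro x
    let a : ℕ → W := fun j => Θ^[j] x
    have ha : ∀ j, a (j + 1) = Θ (a j) := fun j => Function.iterate_succ_apply' _ j x
    have hamono : StrictMono a := strictMono_nat_of_lt_succ (fun j => by rw [ha]; exact hΘ1 _)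
    obtain ⟨y, hy, hymin⟩ := WellFounded.has_min (wellFounded_lt (α := W))
      {b | ∀ n, a n < b} (hub a)
    refine ⟨y, hy 0, ?_⟩
    intro s hs hsy
    have hw : ∀ w, s w = true → ∃ j, w < a j := by
      intro w hw
      by_contra hcon
      push Not at hcon
      exact hymin w (fun n => lt_of_lt_of_le (hamono (Nat.lt_succ_self n)) (hcon _)) (hsy w hw)
    have hfin := KF_finite hs
    have hev : ∀ᶠ j in atTop, ∀ w ∈ {w | s w = true}, w < a j := by
      rw [Filter.eventually_all_finite hfin]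
      intro w hw'
      obtain ⟨j₀, hj₀⟩ := hw w hw'
      filter_upwards [eventually_ge_atTop j₀] with j hj
      exact hj₀.trans_le (hamono.monotone hj)
    obtain ⟨j, hj⟩ := hev.exists
    apply hΘ2 (a j) s hs hj
    rw [← ha]
    exact (hy _).le
  -- the next good point
  have hnx : ∀ x : W, ∃ y, x < y ∧ (∀ s ∈ KF C, (∀ w, s w = true → w < y) → e y s = c s) ∧
      (∀ s ∈ KF C, e x (res y s) = e x s) := by
    intro x
    obtain ⟨y, hy1, hy2⟩ := hgood (max x (hh x))
    exact ⟨y, (le_max_left _ _).trans_lt hy1, hy2,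
      fun s hs => hhh x y ((le_max_right _ _).trans_lt hy1).le s hs⟩
  choose nx hnx1 hnx2 hnx3 using hnx
  -- between `x` and `J x` there is a zero for every finite member
  have hJ : ∀ x : W, ∃ y, x < y ∧ (ηc ≤ x → ∀ s ∈ KF C, ∃ z, x < z ∧ z < y ∧ e z s = c s) := by
    intro x
    let a : ℕ → W := fun j => nx^[j] (nx x)
    have ha0 : a 0 = nx x := rfl
    have ha : ∀ j, a (j + 1) = nx (a j) := fun j => Function.iterate_succ_apply' _ j _
    have hamono : StrictMono a := strictMono_nat_of_lt_succ (fun j => by rw [ha]; exact hnx1 _)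
    obtain ⟨y, hy⟩ := hub a
    have hxa : ∀ j, x < a j := fun j =>
      lt_of_lt_of_le (by rw [ha0]; exact hnx1 x) (hamono.monotone (Nat.zero_le j))
    refine ⟨y, (hxa 0).trans (hy 0), ?_⟩
    intro hxc s hs
    -- an interval free of elements of `s`
    obtain ⟨j, hj⟩ : ∃ j, ∀ w, s w = true → w < a (j + 1) → w < a j := by
      by_contra hcon
      push Not at hcon
      choose w hw1 hw2 hw3 using hcon
      have hmono : StrictMono w := strictMono_nat_of_lt_succ (fun j => (hw2 j).trans_le (hw3 _))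
      exact Set.infinite_of_injective_forall_mem hmono.injective hw1 (KF_finite hs)
    refine ⟨a j, hxa j, hy j, ?_⟩
    have hgoodj : ∀ s ∈ KF C, (∀ w, s w = true → w < a j) → e (a j) s = c s := by
      cases j with
      | zero => rw [ha0]; exact hnx2 x
      | succ j => rw [ha]; exact hnx2 _
    have hres : res (a (j + 1)) s = res (a j) s := by
      funext w
      cases h1 : s w
      · simp [res, h1]
      · by_cases h2 : w < a (j + 1)
        · have h3 := hj w h1 h2
          simp [res, h1, h2, h3]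
        · have h3 : ¬ w < a j := fun h4 => h2 (h4.trans (hamono (Nat.lt_succ_self j)))
          simp [res, h1, h2, h3]
    calc e (a j) s = e (a j) (res (a (j + 1)) s) := by rw [ha]; exact (hnx3 _ s hs).symm
      _ = e (a j) (res (a j) s) := by rw [hres]
      _ = c (res (a j) s) := hgoodj _ (res_KF hs _) (fun w hw => (res_true.mp hw).2)
      _ = c s := hηc _ (hxc.trans (hxa j).le) s hs
  choose J hJ1 hJ2 using hJ
  let δ : ℕ → W := fun j => J^[j] ηc
  have hδ : ∀ j, δ (j + 1) = J (δ j) := fun j => Function.iterate_succ_apply' _ j _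
  have hδmono : StrictMono δ := strictMono_nat_of_lt_succ (fun j => by rw [hδ]; exact hJ1 _)
  have hδc : ∀ j, ηc ≤ δ j := fun j => hδmono.monotone (Nat.zero_le j)
  -- the bound for finite members
  have hbound : ∀ s ∈ KF C, ∀ m, ∑ i ∈ Finset.range m, |e (δ i) s - c s| ≤ V := by
    intro s hs m
    choose z hz1 hz2 hz3 using fun j => hJ2 (δ j) (hδc j) s hs
    have := h.var m δ z hz1 (fun j => by rw [hδ]; exact hz2 j) s (KF_sub C hs)
    simpa only [hz3] using this
  have hfinal : ∀ k : ℕ, ∀ s ∈ KF C,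
      |∑ i ∈ Finset.range k, e (δ i) s - ∑ i ∈ Finset.range k, e (δ (k + i)) s| ≤ V := by
    intro k s hs
    have h1 := hbound s hs (k + k)
    rw [Finset.sum_range_add] at h1
    have h2 : ∑ i ∈ Finset.range k, e (δ i) s - ∑ i ∈ Finset.range k, e (δ (k + i)) s
        = ∑ i ∈ Finset.range k, (e (δ i) s - c s) - ∑ i ∈ Finset.range k, (e (δ (k + i)) s - c s) := by
      rw [Finset.sum_sub_distrib, Finset.sum_sub_distrib]
      ring
    rw [h2]
    calc _ ≤ |∑ i ∈ Finset.range k, (e (δ i) s - c s)|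
          + |∑ i ∈ Finset.range k, (e (δ (k + i)) s - c s)| := abs_sub _ _
      _ ≤ ∑ i ∈ Finset.range k, |e (δ i) s - c s|
          + ∑ i ∈ Finset.range k, |e (δ (k + i)) s - c s| :=
        add_le_add (Finset.abs_sum_le_sum_abs _ _) (Finset.abs_sum_le_sum_abs _ _)
      _ ≤ V := h1
  refine ⟨δ, hδmono, fun k s hs => ?_⟩
  -- density
  have hcont : ContinuousOn (fun s => |∑ i ∈ Finset.range k, e (δ i) s
      - ∑ i ∈ Finset.range k, e (δ (k + i)) s|) (KS C) := by
    apply ContinuousOn.abs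
    apply ContinuousOn.sub
    · exact continuousOn_finsetSum _ (fun i _ => h.cont _)
    · exact continuousOn_finsetSum _ (fun i _ => h.cont _)
  have hmem := dense_KF C hs
  have h1 : ContinuousWithinAt (fun s => |∑ i ∈ Finset.range k, e (δ i) s
      - ∑ i ∈ Finset.range k, e (δ (k + i)) s|) (KF C) s := (hcont s hs).mono (KF_sub C)
  exact h1.closure_le hmem continuousWithinAt_const (fun t ht => hfinal k t ht)

end

end Pool.Agent.H94CK
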